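import Mathlib

open Matrix

namespace Pool.Agent.Work.MP_2c58b6_co

open Classical in
/-- Adjacency matrix: entry 1 at `(i, j)` iff `(i, j)` is an arc. -/
noncomputable def adjMat {n : ℕ} (Γ : Digraph (Fin n)) : Matrix (Fin n) (Fin n) ℝ :=
  fun i j => if Γ.Adj i j then 1 else 0

/-- Out-degree of `i`: the number of arcs `(i, j)`. -/
noncomputable def outDeg {n : ℕ} (Γ : Digraph (Fin n)) (i : Fin n) : ℕ := {j | Γ.Adj i j}.ncard

/-- In-degree of `i`: the number of arcs `(j, i)`. -/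
noncomputable def inDeg {n : ℕ} (Γ : Digraph (Fin n)) (i : Fin n) : ℕ := {j | Γ.Adj j i}.ncard

/-- The Laplacian `L = D - A`, with `D` the diagonal matrix of out-degrees. -/
noncomputable def lap {n : ℕ} (Γ : Digraph (Fin n)) : Matrix (Fin n) (Fin n) ℝ :=
  Matrix.diagonal (fun i => (outDeg Γ i : ℝ)) - adjMat Γ

/-- The complement: the arcs `(i, j)`, `i ≠ j`, that are not arcs of `Γ`. -/
def complement {n : ℕ} (Γ : Digraph (Fin n)) : Digraph (Fin n) :=
  ⟨fun i j => i ≠ j ∧ ¬ Γ.Adj i j⟩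

/-- The values `xᵀ L x` over real unit vectors `x` orthogonal to the all-ones vector. -/
def rayleighValues {n : ℕ} (Γ : Digraph (Fin n)) : Set ℝ :=
  {r | ∃ x : Fin n → ℝ, ∑ i, x i = 0 ∧ ∑ i, x i ^ 2 = 1 ∧ r = x ⬝ᵥ (lap Γ *ᵥ x)}

end Pool.Agent.Work.MP_2c58b6_co
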