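import Pool.Agent.Work.MP_2c58b6_co.Defs

open Matrix

namespace Pool.Agent.Work.MP_2c58b6_co

/-- The example on 10 vertices: directed 4-cycle `0 → 1 → 2 → 3 → 0`, both arcs between
1 and 3, and both arcs between each of 1, 2 and each vertex `r ≥ 4`. -/
def exAdj (i j : Fin 10) : Bool :=
  (i.val == 0 && j.val == 1) || (i.val == 1 && j.val == 2) || (i.val == 2 && j.val == 3) ||
  (i.val == 3 && j.val == 0) || (i.val == 1 && j.val == 3) || (i.val == 3 && j.val == 1) ||
  ((i.val == 1 || i.val == 2) && decide (4 ≤ j.val)) ||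
  ((j.val == 1 || j.val == 2) && decide (4 ≤ i.val))

def exG : Digraph (Fin 10) := ⟨fun i j => exAdj i j = true⟩

lemma isCompact_rayleighValues {n : ℕ} (Γ : Digraph (Fin n)) : IsCompact (rayleighValues Γ) := by
  have hK : IsCompact {x : Fin n → ℝ | ∑ i, x i = 0 ∧ ∑ i, x i ^ 2 = 1} := by
    apply Metric.isCompact_of_isClosed_isBounded
    · apply IsClosed.inter
      · exact isClosed_eq (by fun_prop) continuous_const
      · exact isClosed_eq (by fun_prop) continuous_const
    · rw [Metric.isBounded_iff_subset_closedBall 0]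
      refine ⟨1, fun x hx => ?_⟩
      rw [mem_closedBall_zero_iff, pi_norm_le_iff_of_nonneg zero_le_one]
      intro i
      have h1 : x i ^ 2 ≤ ∑ j, x j ^ 2 :=
        Finset.single_le_sum (f := fun j => x j ^ 2) (fun j _ => sq_nonneg _) (Finset.mem_univ i)
      rw [hx.2] at h1
      rw [Real.norm_eq_abs]
      exact (sq_le_one_iff_abs_le_one _).1 h1
  have hc : Continuous fun x : Fin n → ℝ => x ⬝ᵥ (lap Γ *ᵥ x) := by
    unfold dotProduct Matrix.mulVec dotProduct
    fun_prop
  have := hK.image hc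
  convert this using 1
  ext r
  simp only [rayleighValues, Set.mem_ofPred_eq, Set.mem_image]
  constructor
  · rintro ⟨x, h1, h2, h3⟩
    exact ⟨x, ⟨h1, h2⟩, h3.symm⟩
  · rintro ⟨x, ⟨h1, h2⟩, h3⟩
    exact ⟨x, h1, h2, h3.symm⟩

lemma mem_of_test {n : ℕ} (Γ : Digraph (Fin n)) (y : Fin n → ℝ) (N : ℝ) (hN : 0 < N)
    (h0 : ∑ i, y i = 0) (h2 : ∑ i, y i ^ 2 = N) :
    (y ⬝ᵥ (lap Γ *ᵥ y)) / N ∈ rayleighValues Γ := by
  have hs : 0 < √N := Real.sqrt_pos.2 hN
  have hss : √N * √N = N := Real.mul_self_sqrt hN.le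
  refine ⟨(√N)⁻¹ • y, ?_, ?_, ?_⟩
  · simp only [Pi.smul_apply, smul_eq_mul]
    rw [← Finset.mul_sum, h0, mul_zero]
  · simp only [Pi.smul_apply, smul_eq_mul, mul_pow]
    rw [← Finset.mul_sum, h2, inv_pow, Real.sq_sqrt hN.le]
    field_simp
  · rw [Matrix.mulVec_smul, smul_dotProduct, dotProduct_smul, smul_eq_mul, smul_eq_mul]
    rw [← mul_assoc, ← mul_inv, hss]
    field_simp

lemma ncard_eq (P : Fin 10 → Prop) (f : Fin 10 → Bool) (h : ∀ j, P j ↔ f j = true) :
    {j | P j}.ncard = (Finset.univ.filter (fun j => f j = true)).card := by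
  rw [← Set.ncard_coe_finset]
  congr 1
  ext j
  simp [h]

def cAdj (i j : Fin 10) : Bool := decide (i ≠ j) && !exAdj i j

lemma compl_adj (i j : Fin 10) : (complement exG).Adj i j ↔ cAdj i j = true := by
  simp [complement, exG, cAdj]

lemma lap_eq (Γ : Digraph (Fin 10)) (f : Fin 10 → Fin 10 → Bool)
    (h : ∀ i j, Γ.Adj i j ↔ f i j = true) (i j : Fin 10) :
    lap Γ i j = (((if i = j then ((Finset.univ.filter (fun k => f i k = true)).card : ℤ) else 0)
      - (if f i j = true then 1 else 0) : ℤ) : ℝ) := by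
  unfold lap
  rw [Matrix.sub_apply, Matrix.diagonal_apply]
  unfold adjMat outDeg
  rw [ncard_eq _ (f i) (h i)]
  by_cases h1 : i = j <;> by_cases h2 : f i j = true <;> simp [h, h1, h2]

lemma form_eq (Γ : Digraph (Fin 10)) (f : Fin 10 → Fin 10 → Bool)
    (h : ∀ i j, Γ.Adj i j ↔ f i j = true) (y : Fin 10 → ℤ) :
    (fun i => (y i : ℝ)) ⬝ᵥ (lap Γ *ᵥ fun i => (y i : ℝ)) =
      ((∑ i, y i * ∑ j, ((if i = j then ((Finset.univ.filter (fun k => f i k = true)).card : ℤ)
        else 0) - (if f i j = true then 1 else 0)) * y j : ℤ) : ℝ) := by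
  unfold dotProduct Matrix.mulVec dotProduct
  simp only [lap_eq Γ f h]
  push_cast
  rfl

def y1 : Fin 10 → ℤ := ![38, -2, -7, 13, -7, -7, -7, -7, -7, -7]
def y2 : Fin 10 → ℤ := ![-2, 38, 13, -7, -7, -7, -7, -7, -7, -7]

lemma mem1 : (1700 / 1960 : ℝ) ∈ rayleighValues exG := by
  have h := mem_of_test exG (fun i => (y1 i : ℝ)) 1960 (by norm_num)
    (by have : ∑ i, y1 i = 0 := by decide
        exact_mod_cast this)
    (by have : ∑ i, y1 i ^ 2 = 1960 := by decide
        exact_mod_cast this)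
  rw [form_eq exG exAdj (fun _ _ => Iff.rfl)] at h
  have e : (∑ i, y1 i * ∑ j, ((if i = j then
      ((Finset.univ.filter (fun k => exAdj i k = true)).card : ℤ)
        else 0) - (if exAdj i j = true then 1 else 0)) * y1 j : ℤ) = 1700 := by decide +kernel
  rw [e] at h
  simpa using h

lemma mem2 : (1700 / 1960 : ℝ) ∈ rayleighValues (complement exG) := by
  have h := mem_of_test (complement exG) (fun i => (y2 i : ℝ)) 1960 (by norm_num)
    (by have : ∑ i, y2 i = 0 := by decide
        exact_mod_cast this)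
    (by have : ∑ i, y2 i ^ 2 = 1960 := by decide
        exact_mod_cast this)
  rw [form_eq (complement exG) cAdj compl_adj] at h
  have e : (∑ i, y2 i * ∑ j, ((if i = j then
      ((Finset.univ.filter (fun k => cAdj i k = true)).card : ℤ)
        else 0) - (if cAdj i j = true then 1 else 0)) * y2 j : ℤ) = 1700 := by decide +kernel
  rw [e] at h
  simpa using h

/-- There is a loopless balanced digraph of order `n ≥ 2` whose algebraic connectivity `x` and
the algebraic connectivity `y` of whose complement (the minima of the Rayleigh values) satisfy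
`x ≤ 1`, `y ≤ 1` and `xy(2 - xy) < n(1 - x)(1 - y)(n - 2 - x - y)`. -/
theorem main :
    ∃ (n : ℕ) (Γ : Digraph (Fin n)) (x y : ℝ), 2 ≤ n ∧ (∀ i, ¬ Γ.Adj i i) ∧
      (∀ i, inDeg Γ i = outDeg Γ i) ∧
      IsLeast (rayleighValues Γ) x ∧ IsLeast (rayleighValues (complement Γ)) y ∧
      x ≤ 1 ∧ y ≤ 1 ∧
      x * y * (2 - x * y) < (n : ℝ) * (1 - x) * (1 - y) * ((n : ℝ) - 2 - x - y) := by
  obtain ⟨x, hx⟩ := (isCompact_rayleighValues exG).exists_isLeast ⟨_, mem1⟩
  obtain ⟨y, hy⟩ := (isCompact_rayleighValues (complement exG)).exists_isLeast ⟨_, mem2⟩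
  have hx1 : x ≤ 1700 / 1960 := hx.2 mem1
  have hy1 : y ≤ 1700 / 1960 := hy.2 mem2
  refine ⟨10, exG, x, y, by norm_num, ?_, ?_, hx, hy, by linarith, by linarith, ?_⟩
  · show ∀ i, ¬ (exAdj i i = true)
    decide
  · intro i
    unfold inDeg outDeg
    rw [ncard_eq (fun j => exG.Adj j i) (fun j => exAdj j i) (fun _ => Iff.rfl),
      ncard_eq (fun j => exG.Adj i j) (fun j => exAdj i j) (fun _ => Iff.rfl)]
    revert i
    decide +kernel
  · have h1 : x * y * (2 - x * y) ≤ 1 := by nlinarith [sq_nonneg (1 - x * y)]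
    have ha : (13 / 98 : ℝ) ≤ 1 - x := by linarith
    have hb : (13 / 98 : ℝ) ≤ 1 - y := by linarith
    have hc : (6 : ℝ) ≤ 10 - 2 - x - y := by linarith
    have hab : (13 / 98 : ℝ) * (13 / 98) ≤ (1 - x) * (1 - y) :=
      mul_le_mul ha hb (by norm_num) (by linarith)
    have habc : (13 / 98 : ℝ) * (13 / 98) * 6 ≤ (1 - x) * (1 - y) * (10 - 2 - x - y) :=
      mul_le_mul hab hc (by norm_num) (by nlinarith)
    push_cast
    nlinarith

end Pool.Agent.Work.MP_2c58b6_co
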